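import Mathlib

/-!
# A stationarity lemma: comparable classes have positive density

`core`: if the indices of a random set `A` (stationary under `ℤ^r`) fall into at most `K` classes,
the indices of a class are pairwise comparable for a stationary relation `R`, and for the index `0`
the set of `m` with `R 0 m` has density zero on `A 0`, then `A 0` is a null set.
-/

open MeasureTheory Filter Topology

namespace Pool.Agent.H31.Tricolor

/-- The cube `[-N, N]^r`. -/
noncomputable def cube (r N : ℕ) : Finset (Fin r → ℤ) :=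
  Fintype.piFinset fun _ => Finset.Icc (-(N : ℤ)) N

lemma mem_cube {r N : ℕ} {n : Fin r → ℤ} : n ∈ cube r N ↔ ∀ i, -(N : ℤ) ≤ n i ∧ n i ≤ N := by
  simp [cube, Fintype.mem_piFinset, Finset.mem_Icc]

lemma card_cube (r N : ℕ) : (cube r N).card = (2 * N + 1) ^ r := by
  unfold cube
  rw [Fintype.card_piFinset]
  simp only [Int.card_Icc, Finset.prod_const, Finset.card_univ, Fintype.card_fin]
  have h : ((N : ℤ) + 1 - -(N : ℤ)).toNat = 2 * N + 1 := by omega
  rw [h]

lemma sub_mem_cube {r N : ℕ} {n m : Fin r → ℤ} (hn : n ∈ cube r N) (hm : m ∈ cube r N) :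
    m - n ∈ cube r (2 * N) := by
  rw [mem_cube] at hn hm ⊢
  intro i
  have h1 := hn i
  have h2 := hm i
  simp only [Pi.sub_apply]
  push_cast
  constructor <;> linarith [h1.1, h1.2, h2.1, h2.2]

section

variable {Ω : Type*} [MeasurableSpace Ω]

/-- The real indicator of an event. -/
noncomputable def ind (S : Set Ω) : Ω → ℝ := Set.indicator S (fun _ => (1 : ℝ))

omit [MeasurableSpace Ω] in
lemma ind_nonneg (S : Set Ω) (ω : Ω) : 0 ≤ ind S ω := by
  unfold ind
  exact Set.indicator_nonneg (fun _ _ => zero_le_one) ω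

omit [MeasurableSpace Ω] in
lemma ind_le_one (S : Set Ω) (ω : Ω) : ind S ω ≤ 1 := by
  unfold ind
  exact Set.indicator_le_self' (fun _ _ => zero_le_one) ω

omit [MeasurableSpace Ω] in
lemma ind_of_mem {S : Set Ω} {ω : Ω} (h : ω ∈ S) : ind S ω = 1 := by
  unfold ind
  exact Set.indicator_of_mem h _

omit [MeasurableSpace Ω] in
lemma ind_of_not_mem {S : Set Ω} {ω : Ω} (h : ω ∉ S) : ind S ω = 0 := by
  unfold ind
  exact Set.indicator_of_notMem h _

lemma measurable_ind {S : Set Ω} (hS : MeasurableSet S) : Measurable (ind S) :=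
  measurable_const.indicator hS

lemma integral_ind (P : Measure Ω) {S : Set Ω} (hS : MeasurableSet S) :
    ∫ ω, ind S ω ∂P = P.real S := by
  unfold ind
  rw [integral_indicator hS]
  simp

lemma integrable_ind (P : Measure Ω) [IsProbabilityMeasure P] {S : Set Ω} (hS : MeasurableSet S) :
    Integrable (ind S) P := by
  unfold ind
  exact (integrable_const (1 : ℝ)).indicator hS

omit [MeasurableSpace Ω] in
/-- The pointwise inequality. -/
lemma pointwise {ι : Type*} (W : Finset ι) (A : ι → Set Ω) (R : ι → ι → Set Ω)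
    (K : ℕ) (ω : Ω) (c : ι → Fin K)
    (hc : ∀ n m, ω ∈ A n → ω ∈ A m → c n = c m → ω ∈ R n m ∨ ω ∈ R m n) :
    (∑ n ∈ W, ind (A n) ω) ^ 2 ≤ 2 * K * ∑ n ∈ W, ∑ m ∈ W, ind (A n ∩ R n m) ω := by
  classical
  set T : Fin K → ℝ := fun i => ∑ n ∈ W, if c n = i then ind (A n) ω else 0 with hT
  have h1 : ∑ n ∈ W, ind (A n) ω = ∑ i, T i := by
    rw [hT, Finset.sum_comm]
    refine Finset.sum_congr rfl fun n _ => ?_
    rw [Finset.sum_ite_eq Finset.univ (c n) (fun _ => ind (A n) ω)]
    simp
  have h2 : (∑ i, T i) ^ 2 ≤ K * ∑ i, T i ^ 2 := by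
    have := sq_sum_le_card_mul_sum_sq (s := (Finset.univ : Finset (Fin K))) (f := T)
    simpa using this
  have h3 : ∀ i, T i ^ 2 ≤ ∑ n ∈ W, ∑ m ∈ W,
      (if c n = i then ind (A n ∩ R n m) ω + ind (A m ∩ R m n) ω else 0) := by
    intro i
    rw [sq, hT, Finset.sum_mul_sum]
    refine Finset.sum_le_sum fun n _ => Finset.sum_le_sum fun m _ => ?_
    by_cases hn : c n = i
    · by_cases hm : c m = i
      · simp only [hn, hm, if_true]
        by_cases hAn : ω ∈ A n
        · by_cases hAm : ω ∈ A m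
          · rw [ind_of_mem hAn, ind_of_mem hAm]
            rcases hc n m hAn hAm (hn.trans hm.symm) with h | h
            · rw [ind_of_mem (show ω ∈ A n ∩ R n m from ⟨hAn, h⟩)]
              have := ind_nonneg (A m ∩ R m n) ω
              linarith
            · rw [ind_of_mem (show ω ∈ A m ∩ R m n from ⟨hAm, h⟩)]
              have := ind_nonneg (A n ∩ R n m) ω
              linarith
          · rw [ind_of_not_mem hAm, mul_zero]
            exact add_nonneg (ind_nonneg _ _) (ind_nonneg _ _)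
        · rw [ind_of_not_mem hAn, zero_mul]
          exact add_nonneg (ind_nonneg _ _) (ind_nonneg _ _)
      · simp only [hn, hm, if_true, if_false, mul_zero]
        exact add_nonneg (ind_nonneg _ _) (ind_nonneg _ _)
    · simp only [hn, if_false, zero_mul]
      exact le_refl _
  have h4 : ∑ i, ∑ n ∈ W, ∑ m ∈ W,
      (if c n = i then ind (A n ∩ R n m) ω + ind (A m ∩ R m n) ω else 0)
      = 2 * ∑ n ∈ W, ∑ m ∈ W, ind (A n ∩ R n m) ω := by
    rw [Finset.sum_comm]
    have h5 : ∀ n ∈ W, ∑ i, ∑ m ∈ W,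
        (if c n = i then ind (A n ∩ R n m) ω + ind (A m ∩ R m n) ω else 0)
        = ∑ m ∈ W, (ind (A n ∩ R n m) ω + ind (A m ∩ R m n) ω) := by
      intro n _
      rw [Finset.sum_comm]
      refine Finset.sum_congr rfl fun m _ => ?_
      rw [Finset.sum_ite_eq Finset.univ (c n)
        (fun _ => ind (A n ∩ R n m) ω + ind (A m ∩ R m n) ω)]
      simp
    rw [Finset.sum_congr rfl h5]
    simp only [Finset.sum_add_distrib]
    rw [Finset.sum_comm (s := W) (t := W) (f := fun n m => ind (A m ∩ R m n) ω)]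
    ring
  calc (∑ n ∈ W, ind (A n) ω) ^ 2 = (∑ i, T i) ^ 2 := by rw [h1]
    _ ≤ K * ∑ i, T i ^ 2 := h2
    _ ≤ K * ∑ i, ∑ n ∈ W, ∑ m ∈ W,
        (if c n = i then ind (A n ∩ R n m) ω + ind (A m ∩ R m n) ω else 0) := by
        refine mul_le_mul_of_nonneg_left (Finset.sum_le_sum fun i _ => h3 i) (Nat.cast_nonneg _)
    _ = 2 * K * ∑ n ∈ W, ∑ m ∈ W, ind (A n ∩ R n m) ω := by rw [h4]; ring

/-- The stationarity lemma. -/
theorem core (P : Measure Ω) [IsProbabilityMeasure P] {r : ℕ}
    (τ : (Fin r → ℤ) → Ω → Ω) (hτ : ∀ j, MeasurePreserving (τ j) P P)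
    (A : (Fin r → ℤ) → Set Ω) (R : (Fin r → ℤ) → (Fin r → ℤ) → Set Ω)
    (hAm : ∀ n, MeasurableSet (A n)) (hRm : ∀ n m, MeasurableSet (R n m))
    (hA : ∀ j n, τ j ⁻¹' A n = A (n + j))
    (hR : ∀ j n m, τ j ⁻¹' R n m = R (n + j) (m + j))
    (K : ℕ)
    (hK : ∀ ω, ∃ c : (Fin r → ℤ) → Fin K, ∀ n m, ω ∈ A n → ω ∈ A m → c n = c m →
      ω ∈ R n m ∨ ω ∈ R m n)
    (h0 : ∀ ω ∈ A 0, Tendsto
      (fun N : ℕ => (∑ m ∈ cube r N, ind (R 0 m) ω) / (2 * (N : ℝ) + 1) ^ r) atTop (𝓝 0)) :
    P (A 0) = 0 := by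
  set a : ℝ := P.real (A 0) with ha
  -- stationarity of the probabilities
  have hPA : ∀ n, P.real (A n) = a := by
    intro n
    have h := hA n 0
    rw [zero_add] at h
    rw [← h, ha]
    unfold Measure.real
    rw [(hτ n).measure_preimage (hAm 0).nullMeasurableSet]
  have hPAR : ∀ n m, P.real (A n ∩ R n m) = P.real (A 0 ∩ R 0 (m - n)) := by
    intro n m
    have h := hA n 0
    rw [zero_add] at h
    have h' := hR n 0 (m - n)
    rw [zero_add, sub_add_cancel] at h'
    rw [← h, ← h', ← Set.preimage_inter]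
    unfold Measure.real
    rw [(hτ n).measure_preimage ((hAm 0).inter (hRm 0 (m - n))).nullMeasurableSet]
  -- the dominated convergence part
  have hdom : Tendsto (fun M : ℕ => ∫ ω, (∑ m ∈ cube r M, ind (A 0 ∩ R 0 m) ω) /
      (2 * (M : ℝ) + 1) ^ r ∂P) atTop (𝓝 0) := by
    have h := tendsto_integral_of_dominated_convergence (μ := P)
      (F := fun (M : ℕ) ω => (∑ m ∈ cube r M, ind (A 0 ∩ R 0 m) ω) / (2 * (M : ℝ) + 1) ^ r)
      (f := fun _ => (0 : ℝ)) (fun _ => (1 : ℝ)) ?_ (integrable_const _) ?_ ?_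
    · simpa using h
    · intro M
      refine (Measurable.div_const ?_ _).aestronglyMeasurable
      exact Finset.measurable_sum _ fun m _ => measurable_ind ((hAm 0).inter (hRm 0 m))
    · intro M
      refine Filter.Eventually.of_forall fun ω => ?_
      have hpos : (0 : ℝ) < (2 * (M : ℝ) + 1) ^ r := by positivity
      have hs : 0 ≤ ∑ m ∈ cube r M, ind (A 0 ∩ R 0 m) ω :=
        Finset.sum_nonneg fun m _ => ind_nonneg _ _
      rw [Real.norm_of_nonneg (div_nonneg hs hpos.le), div_le_one hpos]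
      calc ∑ m ∈ cube r M, ind (A 0 ∩ R 0 m) ω ≤ ∑ m ∈ cube r M, (1 : ℝ) :=
            Finset.sum_le_sum fun m _ => ind_le_one _ _
        _ = (2 * (M : ℝ) + 1) ^ r := by
            rw [Finset.sum_const, card_cube]
            simp
    · refine Filter.Eventually.of_forall fun ω => ?_
      by_cases hω : ω ∈ A 0
      · have h1 := h0 ω hω
        refine h1.congr fun M => ?_
        refine congrArg (fun t => t / (2 * (M : ℝ) + 1) ^ r) (Finset.sum_congr rfl fun m _ => ?_)
        by_cases hm : ω ∈ R 0 m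
        · rw [ind_of_mem hm, ind_of_mem (show ω ∈ A 0 ∩ R 0 m from ⟨hω, hm⟩)]
        · rw [ind_of_not_mem hm, ind_of_not_mem (fun h : ω ∈ A 0 ∩ R 0 m => hm h.2)]
      · have : (fun M : ℕ => (∑ m ∈ cube r M, ind (A 0 ∩ R 0 m) ω) / (2 * (M : ℝ) + 1) ^ r)
            = fun _ => (0 : ℝ) := by
          funext M
          rw [Finset.sum_eq_zero, zero_div]
          intro m _
          exact ind_of_not_mem (fun h : ω ∈ A 0 ∩ R 0 m => hω h.1)
        rw [this]
        exact tendsto_const_nhds
  -- the inequality for each N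
  have hineq : ∀ N : ℕ, a ^ 2 ≤ 2 * K * 2 ^ r * ∫ ω, (∑ m ∈ cube r (2 * N),
      ind (A 0 ∩ R 0 m) ω) / (2 * ((2 * N : ℕ) : ℝ) + 1) ^ r ∂P := by
    intro N
    set D : ℝ := (2 * (N : ℝ) + 1) ^ r with hD
    have hDpos : 0 < D := by positivity
    set S : ℝ := ∫ ω, (∑ m ∈ cube r (2 * N), ind (A 0 ∩ R 0 m) ω) ∂P with hS
    have hSsum : S = ∑ m ∈ cube r (2 * N), P.real (A 0 ∩ R 0 m) := by
      rw [hS, integral_finsetSum _ fun m _ => integrable_ind P ((hAm 0).inter (hRm 0 m))]
      exact Finset.sum_congr rfl fun m _ => integral_ind P ((hAm 0).inter (hRm 0 m))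
    -- expectation of the pair count
    have hpair : ∫ ω, (∑ n ∈ cube r N, ∑ m ∈ cube r N, ind (A n ∩ R n m) ω) ∂P ≤ D * S := by
      rw [integral_finsetSum _ fun n _ => integrable_finsetSum _ fun m _ =>
        integrable_ind P ((hAm n).inter (hRm n m))]
      have h1 : ∀ n ∈ cube r N, ∫ ω, (∑ m ∈ cube r N, ind (A n ∩ R n m) ω) ∂P ≤ S := by
        intro n hn
        rw [integral_finsetSum _ fun m _ => integrable_ind P ((hAm n).inter (hRm n m)), hSsum]
        calc ∑ m ∈ cube r N, ∫ ω, ind (A n ∩ R n m) ω ∂P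
            = ∑ m ∈ cube r N, P.real (A 0 ∩ R 0 (m - n)) := by
              refine Finset.sum_congr rfl fun m _ => ?_
              rw [integral_ind P ((hAm n).inter (hRm n m)), hPAR]
          _ = ∑ m ∈ (cube r N).image (fun m => m - n), P.real (A 0 ∩ R 0 m) := by
              rw [Finset.sum_image]
              intro x _ y _ hxy
              exact sub_left_injective hxy
          _ ≤ ∑ m ∈ cube r (2 * N), P.real (A 0 ∩ R 0 m) := by
              refine Finset.sum_le_sum_of_subset_of_nonneg ?_ fun m _ _ => measureReal_nonneg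
              intro x hx
              rw [Finset.mem_image] at hx
              obtain ⟨m, hm, rfl⟩ := hx
              exact sub_mem_cube hn hm
      calc ∑ n ∈ cube r N, ∫ ω, (∑ m ∈ cube r N, ind (A n ∩ R n m) ω) ∂P
          ≤ ∑ n ∈ cube r N, S := Finset.sum_le_sum h1
        _ = D * S := by
            rw [Finset.sum_const, card_cube, nsmul_eq_mul]
            push_cast
            rfl
    -- expectation of the number of indices
    have hT : ∫ ω, (∑ n ∈ cube r N, ind (A n) ω) ∂P = D * a := by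
      rw [integral_finsetSum _ fun n _ => integrable_ind P (hAm n)]
      rw [Finset.sum_congr rfl fun n _ => (integral_ind P (hAm n)).trans (hPA n)]
      rw [Finset.sum_const, card_cube, nsmul_eq_mul]
      push_cast
      rfl
    have hTint : Integrable (fun ω => ∑ n ∈ cube r N, ind (A n) ω) P :=
      integrable_finsetSum _ fun n _ => integrable_ind P (hAm n)
    have hpint : Integrable (fun ω => ∑ n ∈ cube r N, ∑ m ∈ cube r N, ind (A n ∩ R n m) ω) P :=
      integrable_finsetSum _ fun n _ => integrable_finsetSum _ fun m _ =>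
        integrable_ind P ((hAm n).inter (hRm n m))
    -- integrate the pointwise inequality
    have hmain : 2 * (D * a) * (D * a) - (D * a) ^ 2 ≤ 2 * K * (D * S) := by
      have h1 : ∫ ω, (2 * (D * a) * (∑ n ∈ cube r N, ind (A n) ω) - (D * a) ^ 2) ∂P ≤
          ∫ ω, (2 * K * ∑ n ∈ cube r N, ∑ m ∈ cube r N, ind (A n ∩ R n m) ω) ∂P := by
        refine integral_mono ((hTint.const_mul _).sub (integrable_const _))
          (hpint.const_mul _) fun ω => ?_
        obtain ⟨c, hc⟩ := hK ω
        have h2 := pointwise (cube r N) A R K ω c hc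
        have h3 := sq_nonneg ((∑ n ∈ cube r N, ind (A n) ω) - D * a)
        simp only
        nlinarith [h2, h3]
      rw [integral_sub (hTint.const_mul _) (integrable_const _), integral_const_mul, hT,
        integral_const_mul] at h1
      simp only [integral_const, probReal_univ, smul_eq_mul, one_mul] at h1
      have hKnn : (0 : ℝ) ≤ 2 * K := by positivity
      exact h1.trans (mul_le_mul_of_nonneg_left hpair hKnn)
    have h5 : a ^ 2 * D ^ 2 ≤ 2 * K * (D * S) := by nlinarith [hmain]
    have h6 : a ^ 2 * D ≤ 2 * K * S := by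
      have : a ^ 2 * D * D ≤ 2 * K * S * D := by nlinarith [h5]
      exact le_of_mul_le_mul_right this hDpos
    have hSnn : 0 ≤ S := by
      rw [hSsum]
      exact Finset.sum_nonneg fun m _ => measureReal_nonneg
    rw [integral_div, ← hS]
    set E : ℝ := (2 * ((2 * N : ℕ) : ℝ) + 1) ^ r with hE
    have hEpos : 0 < E := by positivity
    have hED : E ≤ 2 ^ r * D := by
      rw [hE, hD, ← mul_pow]
      refine pow_le_pow_left₀ (by positivity) ?_ r
      push_cast
      linarith
    rw [← mul_div_assoc, le_div_iff₀ hEpos]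
    calc a ^ 2 * E ≤ a ^ 2 * (2 ^ r * D) := mul_le_mul_of_nonneg_left hED (sq_nonneg a)
      _ = 2 ^ r * (a ^ 2 * D) := by ring
      _ ≤ 2 ^ r * (2 * K * S) := mul_le_mul_of_nonneg_left h6 (by positivity)
      _ = 2 * K * 2 ^ r * S := by ring
  -- the limit
  have hlim : Tendsto (fun N : ℕ => 2 * K * 2 ^ r * ∫ ω, (∑ m ∈ cube r (2 * N),
      ind (A 0 ∩ R 0 m) ω) / (2 * ((2 * N : ℕ) : ℝ) + 1) ^ r ∂P) atTop (𝓝 0) := by
    have h1 : Tendsto (fun N : ℕ => 2 * N) atTop atTop :=
      tendsto_atTop_mono (fun n => by omega : ∀ n : ℕ, n ≤ 2 * n) tendsto_id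
    have h2 := (hdom.comp h1).const_mul (2 * (K : ℝ) * 2 ^ r)
    rw [mul_zero] at h2
    exact h2
  have hle : a ^ 2 ≤ 0 := ge_of_tendsto' hlim hineq
  have ha0 : a = 0 := by
    have := sq_nonneg a
    have h7 : a ^ 2 = 0 := le_antisymm hle this
    exact pow_eq_zero_iff (two_ne_zero) |>.mp h7
  have h8 : P.real (A 0) = 0 := ha0
  unfold Measure.real at h8
  rcases (ENNReal.toReal_eq_zero_iff _).mp h8 with h | h
  · exact h
  · exact absurd h (measure_ne_top P _)

end

end Pool.Agent.H31.Tricolor
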