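import Mathlib

/-!
# Zero-one law for translation invariant events of an i.i.d. field

`zero_one`: if for every finite set `S` of sites there is an injective map `g` of the sites with
`g S` disjoint from `S` such that the event `A` is invariant under `ω ↦ ω ∘ g`, then `A` has
probability `0` or `1` for the product measure of equal factors.
-/

open MeasureTheory Filter Topology ProbabilityTheory
open scoped symmDiff ENNReal

namespace Pool.Agent.H31.Tricolor

section

variable {ι X : Type*} [MeasurableSpace X]

lemma measurable_shift (g : ι → ι) : Measurable (fun (ω : ι → X) (i : ι) => ω (g i)) := by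
  fun_prop

/-- The product measure of equal factors is invariant under injective maps of the sites. -/
lemma measurePreserving_shift (ν : Measure X) [IsProbabilityMeasure ν] {g : ι → ι}
    (hg : Function.Injective g) :
    MeasurePreserving (fun (ω : ι → X) (i : ι) => ω (g i))
      (Measure.infinitePi fun _ : ι => ν) (Measure.infinitePi fun _ : ι => ν) := by
  refine ⟨measurable_shift g, ?_⟩
  exact Measure.map_infinitePi_infinitePi_of_inj (P := fun _ : ι => ν) hg

/-- Cylinders over disjoint finite sets are independent. -/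
lemma indep_cylinder (ν : Measure X) [IsProbabilityMeasure ν] {g : ι → ι}
    (hg : Function.Injective g) {S : Finset ι} (hS : ∀ i ∈ S, g i ∉ S)
    {B : Set (S → X)} (hB : MeasurableSet B) :
    (Measure.infinitePi fun _ : ι => ν).real
      (cylinder S B ∩ (fun (ω : ι → X) (i : ι) => ω (g i)) ⁻¹' cylinder S B) =
    (Measure.infinitePi fun _ : ι => ν).real (cylinder S B) ^ 2 := by
  classical
  set P := Measure.infinitePi fun _ : ι => ν with hP
  have hind : iIndepFun (fun (i : ι) (ω : ι → X) => ω i) P :=
    iIndepFun_infinitePi (P := fun _ : ι => ν) (X := fun _ x => x) (fun _ => measurable_id)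
  have hdis : Disjoint S (S.image g) := by
    rw [Finset.disjoint_left]
    intro i hi hi'
    obtain ⟨j, hj, rfl⟩ := Finset.mem_image.1 hi'
    exact hS j hj hi
  obtain ⟨S', hS'⟩ : ∃ S' : Finset ι, S' = S.image g := ⟨_, rfl⟩
  have hmem : ∀ i ∈ S, g i ∈ S' := fun i hi => by
    rw [hS']; exact Finset.mem_image_of_mem g hi
  rw [← hS'] at hdis
  have h1 := hind.indepFun_finset S S' hdis (fun i => measurable_pi_apply i)
  -- the second event as a preimage under the restriction to `S'`
  set e : (S' → X) → (S → X) := fun x i => x ⟨g i, hmem i i.2⟩ with he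
  have hem : Measurable e := by
    rw [he]
    fun_prop
  have h2 : (fun (ω : ι → X) (i : ι) => ω (g i)) ⁻¹' cylinder S B =
      (fun (ω : ι → X) (i : S') => ω i) ⁻¹' (e ⁻¹' B) := by
    ext ω
    rfl
  have h3 : cylinder S B = (fun (ω : ι → X) (i : S) => ω i) ⁻¹' B := by
    ext ω
    rfl
  have h4 := h1.measure_inter_preimage_eq_mul B (e ⁻¹' B) hB (hem hB)
  have h5 : P ((fun (ω : ι → X) (i : ι) => ω (g i)) ⁻¹' cylinder S B) = P (cylinder S B) := by
    rw [(measurePreserving_shift ν hg).measure_preimage (MeasurableSet.cylinder S hB).nullMeasurableSet]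
  unfold Measure.real
  rw [h3] at h5
  rw [h3]
  rw [show (fun (ω : ι → X) (i : ι) => ω (g i)) ⁻¹' ((fun (ω : ι → X) (i : S) => ω i) ⁻¹' B) =
    (fun (ω : ι → X) (i : S') => ω i) ⁻¹' (e ⁻¹' B) from rfl]
  rw [show (fun (ω : ι → X) (i : ι) => ω (g i)) ⁻¹' ((fun (ω : ι → X) (i : S) => ω i) ⁻¹' B) =
    (fun (ω : ι → X) (i : S') => ω i) ⁻¹' (e ⁻¹' B) from rfl] at h5
  rw [h4, h5, ENNReal.toReal_mul, sq]

lemma real_sub_le (P : Measure (ι → X)) [IsProbabilityMeasure P] {s t : Set (ι → X)} :
    |P.real s - P.real t| ≤ P.real (s ∆ t) := by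
  have h1 : P.real s ≤ P.real t + P.real (s ∆ t) := by
    calc P.real s ≤ P.real (t ∪ s ∆ t) := by
          refine measureReal_mono ?_
          intro x hx
          by_cases hxt : x ∈ t
          · exact Or.inl hxt
          · exact Or.inr (Or.inl ⟨hx, hxt⟩)
      _ ≤ P.real t + P.real (s ∆ t) := measureReal_union_le _ _
  have h2 : P.real t ≤ P.real s + P.real (s ∆ t) := by
    calc P.real t ≤ P.real (s ∪ s ∆ t) := by
          refine measureReal_mono ?_
          intro x hx
          by_cases hxs : x ∈ s
          · exact Or.inl hxs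
          · exact Or.inr (Or.inr ⟨hx, hxs⟩)
      _ ≤ P.real s + P.real (s ∆ t) := measureReal_union_le _ _
  rw [abs_le]
  constructor <;> linarith

/-- **Zero-one law.** -/
theorem zero_one (ν : Measure X) [IsProbabilityMeasure ν] {A : Set (ι → X)}
    (hAm : MeasurableSet A)
    (hA : ∀ S : Finset ι, ∃ g : ι → ι, Function.Injective g ∧ (∀ i ∈ S, g i ∉ S) ∧
      (fun (ω : ι → X) (i : ι) => ω (g i)) ⁻¹' A = A) :
    (Measure.infinitePi fun _ : ι => ν) A = 0 ∨ (Measure.infinitePi fun _ : ι => ν) A = 1 := by
  classical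
  set P := Measure.infinitePi fun _ : ι => ν with hP
  have key : ∀ ε : ℝ, 0 < ε → |P.real A - P.real A ^ 2| ≤ 4 * ε := by
    intro ε hε
    obtain ⟨t, htC, htε⟩ := exists_measure_symmDiff_lt_of_generateFrom_isSetRing (μ := P)
      (C := measurableCylinders fun _ : ι => X) isSetRing_measurableCylinders
      ⟨{Set.univ}, Set.countable_singleton _, by
        intro s hs
        rw [Set.mem_singleton_iff] at hs
        rw [hs]
        exact univ_mem_measurableCylinders _, by simp⟩
      generateFrom_measurableCylinders.symm hAm (ε := ENNReal.ofReal ε) (by simpa using hε)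
    rw [mem_measurableCylinders] at htC
    obtain ⟨S, B, hB, rfl⟩ := htC
    obtain ⟨g, hg, hgS, hgA⟩ := hA S
    set T : (ι → X) → (ι → X) := fun ω i => ω (g i) with hT
    have hTm : MeasurePreserving T P P := measurePreserving_shift ν hg
    have hcyl : MeasurableSet (cylinder (α := fun _ : ι => X) S B) :=
      MeasurableSet.cylinder (α := fun _ : ι => X) S hB
    have hε1 : P.real (cylinder S B ∆ A) ≤ ε := by
      unfold Measure.real
      have := htε.le
      exact ENNReal.toReal_le_of_le_ofReal hε.le this
    have hε2 : P.real ((T ⁻¹' cylinder S B) ∆ A) ≤ ε := by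
      have h1 : (T ⁻¹' cylinder S B) ∆ A = T ⁻¹' (cylinder S B ∆ A) := by
        rw [Set.preimage_symmDiff, hgA]
      rw [h1]
      unfold Measure.real
      rw [hTm.measure_preimage (hcyl.symmDiff hAm).nullMeasurableSet]
      exact hε1
    have hind : P.real (cylinder S B ∩ T ⁻¹' cylinder S B) = P.real (cylinder S B) ^ 2 :=
      indep_cylinder ν hg hgS hB
    have h3 : P.real ((cylinder S B ∩ T ⁻¹' cylinder S B) ∆ A) ≤ 2 * ε := by
      calc P.real ((cylinder S B ∩ T ⁻¹' cylinder S B) ∆ A)
          ≤ P.real ((cylinder S B ∆ A) ∪ ((T ⁻¹' cylinder S B) ∆ A)) := by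
            refine measureReal_mono ?_
            intro x hx
            rcases hx with ⟨⟨h1, h2⟩, h3⟩ | ⟨h1, h2⟩
            · exact Or.inl (Or.inl ⟨h1, h3⟩)
            · by_cases h3 : x ∈ cylinder S B
              · refine Or.inr (Or.inr ⟨h1, fun h4 => h2 ⟨h3, h4⟩⟩)
              · exact Or.inl (Or.inr ⟨h1, h3⟩)
        _ ≤ P.real (cylinder S B ∆ A) + P.real ((T ⁻¹' cylinder S B) ∆ A) :=
            measureReal_union_le _ _
        _ ≤ 2 * ε := by linarith
    have h4 := real_sub_le P (s := cylinder S B ∩ T ⁻¹' cylinder S B) (t := A)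
    have h5 := real_sub_le P (s := cylinder S B) (t := A)
    rw [hind] at h4
    have ha0 : 0 ≤ P.real A := measureReal_nonneg
    have ha1 : P.real A ≤ 1 := measureReal_le_one
    have hc0 : 0 ≤ P.real (cylinder S B) := measureReal_nonneg
    have hc1 : P.real (cylinder S B) ≤ 1 := measureReal_le_one
    have h6 : |P.real (cylinder S B) ^ 2 - P.real A ^ 2| ≤ 2 * ε := by
      have h7 : P.real (cylinder S B) ^ 2 - P.real A ^ 2 =
          (P.real (cylinder S B) + P.real A) * (P.real (cylinder S B) - P.real A) := by ring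
      rw [h7, abs_mul, abs_of_nonneg (by linarith : 0 ≤ P.real (cylinder S B) + P.real A)]
      exact mul_le_mul (by linarith) (h5.trans hε1) (abs_nonneg _) (by norm_num)
    have h8 := h4.trans h3
    rw [abs_le] at h6 h8 ⊢
    constructor <;> linarith [h6.1, h6.2, h8.1, h8.2]
  have h0 : P.real A - P.real A ^ 2 = 0 := by
    by_contra hne
    have hpos : 0 < |P.real A - P.real A ^ 2| := abs_pos.2 hne
    have := key (|P.real A - P.real A ^ 2| / 8) (by positivity)
    linarith
  have h1 : P.real A * (1 - P.real A) = 0 := by linarith [h0, sq (P.real A)]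
  rcases mul_eq_zero.1 h1 with h | h
  · left
    unfold Measure.real at h
    rcases (ENNReal.toReal_eq_zero_iff _).1 h with h2 | h2
    · exact h2
    · exact absurd h2 (measure_ne_top P _)
  · right
    have h2 : P.real A = 1 := by linarith
    unfold Measure.real at h2
    rw [← ENNReal.ofReal_toReal (measure_ne_top P A), h2, ENNReal.ofReal_one]

end

end Pool.Agent.H31.Tricolor
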